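import Pool.Agent.Run7.h242.SC.Iface

set_option autoImplicit false

/-! # Project SC (MP_a6162f_an): GAMB, GAML, GAMI (coiled tubes) -/

namespace Run7.h811.SC

open MeasureTheory Set Filter Topology Metric
open Run7.h242.SC

theorem cc_le {v y : ℝ} (hv : 0 < v) (hv1 : v ≤ 1 / 32) : cc v y ≤ v := by
  unfold cc
  refine max_le ?_ (min_le_left _ _)
  nlinarith

theorem cc_ge {v y : ℝ} : v ^ 2 ≤ cc v y := le_max_left _ _

theorem cc_pos {v y : ℝ} (hv : 0 < v) : 0 < cc v y := lt_of_lt_of_le (by positivity) cc_ge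

theorem cc_neg {v y : ℝ} (hv : 0 < v) (hv1 : v ≤ 1 / 32) (hy : y ≤ 0) : cc v y = v := by
  refine le_antisymm (cc_le hv hv1) ?_
  unfold cc
  refine le_max_of_le_right (le_min le_rfl ?_)
  nlinarith

theorem cc_big {v y : ℝ} (_hv : 0 < v) (hv1 : v ≤ 1 / 32) (hy : v ≤ y) : cc v y = v ^ 2 := by
  refine le_antisymm ?_ cc_ge
  unfold cc
  refine max_le le_rfl (min_le_of_right_le ?_)
  nlinarith

theorem tt_zero {v y : ℝ} (hy : y ≤ 3 * v) : tt v y = 0 := by
  unfold tt; exact max_eq_right (by linarith)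

theorem tt_eq {v y : ℝ} (hy : 3 * v ≤ y) : tt v y = y - 3 * v := by
  unfold tt; exact max_eq_left (by linarith)

theorem tt_nonneg {v y : ℝ} : 0 ≤ tt v y := le_max_right _ _

theorem tt_le {v y : ℝ} (hv : 0 < v) (hy : y ≤ 1) : tt v y ≤ 1 :=
  max_le (by linarith) zero_le_one

theorem fst_re {v : ℝ} {c0 : ℂ} {p : ℂ × ℝ} :
    ((Gam v c0 p).1).re = c0.re + (-v + (v + cc v p.2 * p.1.re) * Real.cos (tt v p.2 / v)) := rfl

theorem fst_im {v : ℝ} {c0 : ℂ} {p : ℂ × ℝ} :
    ((Gam v c0 p).1).im = c0.im + (cc v p.2 * p.1.im + v * tt v p.2) := rfl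

theorem snd_eq {v : ℝ} {c0 : ℂ} {p : ℂ × ℝ} :
    (Gam v c0 p).2 = min p.2 (3 * v) + (v + cc v p.2 * p.1.re) * Real.sin (tt v p.2 / v) := rfl

theorem norm_le_ri (z : ℂ) : ‖z‖ ≤ |z.re| + |z.im| := Complex.norm_le_abs_re_add_abs_im z

theorem depth_big {v : ℝ} {c0 : ℂ} {p : ℂ × ℝ} (hv : 0 < v) (hv1 : v ≤ 1 / 32)
    (hx : |p.1.re| ≤ 1) (hy : 3 * v ≤ p.2) :
    2 * v - v ^ 2 ≤ (Gam v c0 p).2 ∧ (Gam v c0 p).2 ≤ 4 * v + v ^ 2 := by
  rw [snd_eq, min_eq_right hy, cc_big hv hv1 (by linarith)]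
  obtain ⟨h1, h2⟩ := abs_le.1 hx
  have hs1 := Real.neg_one_le_sin (tt v p.2 / v)
  have hs2 := Real.sin_le_one (tt v p.2 / v)
  have hv2 : 0 < v ^ 2 := by positivity
  have hr0 : 0 ≤ v + v ^ 2 * p.1.re := by nlinarith
  have hr1 : v + v ^ 2 * p.1.re ≤ v + v ^ 2 := by nlinarith
  constructor
  · nlinarith [mul_nonneg hr0 (by linarith : 0 ≤ 1 + Real.sin (tt v p.2 / v))]
  · nlinarith [mul_nonneg hr0 (by linarith : 0 ≤ 1 - Real.sin (tt v p.2 / v))]

theorem snd_small {v : ℝ} {c0 : ℂ} {p : ℂ × ℝ} (hy : p.2 ≤ 3 * v) : (Gam v c0 p).2 = p.2 := by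
  rw [snd_eq, tt_zero hy, zero_div, Real.sin_zero, mul_zero, add_zero, min_eq_left hy]

theorem t_GAMB : S_GAMB := by
  intro v hv hv1 c0 p hx hb hy1
  refine ⟨?_, snd_small, ?_, ?_, ?_⟩
  · intro hy
    have h3 : p.2 ≤ 3 * v := by linarith
    refine Prod.ext (Complex.ext ?_ ?_) (snd_small h3)
    · rw [fst_re, tt_zero h3, zero_div, Real.cos_zero, cc_neg hv hv1 hy]
      simp
    · rw [fst_im, tt_zero h3, cc_neg hv hv1 hy]
      simp
  · intro hy0
    refine ⟨?_, ?_, ?_⟩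
    · refine (norm_le_ri _).trans ?_
      rw [Complex.sub_re, Complex.sub_im, fst_re, fst_im, add_sub_cancel_left, add_sub_cancel_left]
      have hc0 : 0 < cc v p.2 := cc_pos hv
      have hc1 : cc v p.2 ≤ v := cc_le hv hv1
      have h1 : |cc v p.2 * p.1.re| ≤ v := by
        rw [abs_mul, abs_of_pos hc0]
        calc cc v p.2 * |p.1.re| ≤ v * 1 := mul_le_mul hc1 hx (abs_nonneg _) hv.le
          _ = v := mul_one v
      have h2 : |cc v p.2 * p.1.im| ≤ v := by
        rw [abs_mul, abs_of_pos hc0]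
        calc cc v p.2 * |p.1.im| ≤ v * 1 := mul_le_mul hc1 hb (abs_nonneg _) hv.le
          _ = v := mul_one v
      have h3 : |(v + cc v p.2 * p.1.re) * Real.cos (tt v p.2 / v)| ≤ 2 * v := by
        rw [abs_mul]
        have : |v + cc v p.2 * p.1.re| ≤ 2 * v := by
          refine (abs_add_le _ _).trans ?_
          rw [abs_of_pos hv]; linarith
        calc _ ≤ 2 * v * 1 := mul_le_mul this (Real.abs_cos_le_one _) (abs_nonneg _) (by linarith)
          _ = 2 * v := mul_one _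
      have h4 : |v * tt v p.2| ≤ v := by
        rw [abs_of_nonneg (mul_nonneg hv.le tt_nonneg)]
        calc v * tt v p.2 ≤ v * 1 := mul_le_mul_of_nonneg_left (tt_le hv hy1) hv.le
          _ = v := mul_one v
      have h5 := abs_add_le (-v) ((v + cc v p.2 * p.1.re) * Real.cos (tt v p.2 / v))
      rw [abs_neg, abs_of_pos hv] at h5
      have h6 := abs_add_le (cc v p.2 * p.1.im) (v * tt v p.2)
      linarith
    · rcases le_total p.2 (3 * v) with h | h
      · rw [snd_small h]; exact hy0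
      · have := (depth_big (c0 := c0) hv hv1 hx h).1
        nlinarith
    · rcases le_total p.2 (3 * v) with h | h
      · rw [snd_small h]; linarith
      · have := (depth_big (c0 := c0) hv hv1 hx h).2
        nlinarith
  · intro hy0
    rcases le_total p.2 (3 * v) with h | h
    · rw [snd_small h]; exact hy0
    · have := (depth_big (c0 := c0) hv hv1 hx h).1
      nlinarith
  · intro h
    have := (depth_big (c0 := c0) hv hv1 hx h).1
    nlinarith

end Run7.h811.SC
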