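import Pool.Agent.Run7.h811.SC.GAMB

set_option autoImplicit false

/-! # Project SC (MP_a6162f_an): GAMI -/

namespace Run7.h811.SC

open MeasureTheory Set Filter Topology Metric
open Run7.h242.SC

/-- the mixed case is impossible -/
theorem mixed {v : ℝ} {c0 : ℂ} {p p' : ℂ × ℝ} (hv : 0 < v) (hv1 : v ≤ 1 / 32)
    (hx' : |p'.1.re| ≤ 1) (hb : |p.1.im| ≤ 1) (hb' : |p'.1.im| ≤ 1)
    (hy : p.2 ≤ 3 * v) (hy' : 3 * v < p'.2) : Gam v c0 p ≠ Gam v c0 p' := by
  intro h
  have e3 := congrArg Prod.snd h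
  have e2 : ((Gam v c0 p).1).im = ((Gam v c0 p').1).im := by rw [h]
  rw [fst_im, fst_im] at e2
  rw [snd_small hy] at e3
  obtain ⟨h1, h2⟩ := abs_le.1 hx'
  obtain ⟨h3, h4⟩ := abs_le.1 hb
  obtain ⟨h5, h6⟩ := abs_le.1 hb'
  have hd := (depth_big (c0 := c0) hv hv1 hx' hy'.le).1
  have hv2 : 0 < v ^ 2 := by positivity
  have hvv : v ^ 2 ≤ v / 32 := by nlinarith
  have hc : cc v p.2 = v ^ 2 := cc_big hv hv1 (by rw [e3]; linarith)
  have hc' : cc v p'.2 = v ^ 2 := cc_big hv hv1 (by linarith)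
  rw [hc, hc', tt_zero hy, tt_eq hy'.le] at e2
  rw [snd_eq, min_eq_right hy'.le, hc', tt_eq hy'.le] at e3
  set θ := (p'.2 - 3 * v) / v with hθ
  have hθ0 : 0 < θ := div_pos (by linarith) hv
  have hθv : p'.2 - 3 * v = v * θ := by rw [hθ]; field_simp
  have hr0 : 0 < v + v ^ 2 * p'.1.re := by nlinarith
  have hs : Real.sin θ ≤ 0 := by
    by_contra hcon
    have := mul_pos hr0 (not_le.1 hcon)
    linarith
  have hπ : Real.pi ≤ θ := by
    by_contra hcon
    have := Real.sin_pos_of_pos_of_lt_pi hθ0 (not_le.1 hcon)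
    linarith
  have hπ3 := Real.pi_gt_three
  rw [hθv] at e2
  have e4 : v ^ 2 * p.1.im = v ^ 2 * (p'.1.im + θ) := by linarith
  have e5 := mul_left_cancel₀ hv2.ne' e4
  linarith

theorem t_GAMI : S_GAMI := by
  intro v hv hv1 c0 p hp p' hp' h
  obtain ⟨hx, hb, hy0, hy1⟩ := hp
  obtain ⟨hx', hb', hy0', hy1'⟩ := hp'
  rcases le_or_gt p.2 (3 * v) with hy | hy
  · rcases le_or_gt p'.2 (3 * v) with hy' | hy'
    · have e3 := congrArg Prod.snd h
      rw [snd_small hy, snd_small hy'] at e3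
      have e1 : ((Gam v c0 p).1).re = ((Gam v c0 p').1).re := by rw [h]
      have e2 : ((Gam v c0 p).1).im = ((Gam v c0 p').1).im := by rw [h]
      rw [fst_re, fst_re, tt_zero hy, tt_zero hy', zero_div, Real.cos_zero, ← e3] at e1
      rw [fst_im, fst_im, tt_zero hy, tt_zero hy', ← e3] at e2
      have hc : cc v p.2 ≠ 0 := (cc_pos hv).ne'
      have e4 : cc v p.2 * p.1.re = cc v p.2 * p'.1.re := by linarith
      have e5 : cc v p.2 * p.1.im = cc v p.2 * p'.1.im := by linarith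
      exact Prod.ext (Complex.ext (mul_left_cancel₀ hc e4) (mul_left_cancel₀ hc e5)) e3
    · exact absurd h (mixed hv hv1 hx' hb hb' hy hy')
  · rcases le_or_gt p'.2 (3 * v) with hy' | hy'
    · exact absurd h.symm (mixed hv hv1 hx hb' hb hy' hy)
    · have e1 := congrArg (fun w : ℂ × ℝ => w.1.re) h
      have e2 := congrArg (fun w : ℂ × ℝ => w.1.im) h
      have e3 := congrArg Prod.snd h
      have hc : cc v p.2 = v ^ 2 := cc_big hv hv1 (by linarith)
      have hc' : cc v p'.2 = v ^ 2 := cc_big hv hv1 (by linarith)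
      rw [fst_re, fst_re, hc, hc', tt_eq hy.le, tt_eq hy'.le] at e1
      rw [fst_im, fst_im, hc, hc', tt_eq hy.le, tt_eq hy'.le] at e2
      rw [snd_eq, snd_eq, hc, hc', tt_eq hy.le, tt_eq hy'.le, min_eq_right hy.le,
        min_eq_right hy'.le] at e3
      have hv2 : 0 < v ^ 2 := by positivity
      set θ := (p.2 - 3 * v) / v with hθ
      set θ' := (p'.2 - 3 * v) / v with hθ'
      have hθv : p.2 - 3 * v = v * θ := by rw [hθ]; field_simp
      have hθv' : p'.2 - 3 * v = v * θ' := by rw [hθ']; field_simp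
      obtain ⟨h1, h2⟩ := abs_le.1 hx
      obtain ⟨h1', h2'⟩ := abs_le.1 hx'
      obtain ⟨h3, h4⟩ := abs_le.1 hb
      obtain ⟨h5, h6⟩ := abs_le.1 hb'
      have hr0 : 0 < v + v ^ 2 * p.1.re := by nlinarith
      have hr0' : 0 < v + v ^ 2 * p'.1.re := by nlinarith
      set r := v + v ^ 2 * p.1.re with hr
      set r' := v + v ^ 2 * p'.1.re with hr'
      have e1' : r * Real.cos θ = r' * Real.cos θ' := by linarith
      have e3' : r * Real.sin θ = r' * Real.sin θ' := by linarith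
      have hrr : r ^ 2 = r' ^ 2 := by
        have f1 : r ^ 2 = (r * Real.cos θ) ^ 2 + (r * Real.sin θ) ^ 2 := by
          rw [mul_pow, mul_pow, ← mul_add, Real.cos_sq_add_sin_sq, mul_one]
        have f2 : r' ^ 2 = (r' * Real.cos θ') ^ 2 + (r' * Real.sin θ') ^ 2 := by
          rw [mul_pow, mul_pow, ← mul_add, Real.cos_sq_add_sin_sq, mul_one]
        rw [f1, f2, e1', e3']
      have hrr' : r = r' := (pow_left_inj₀ hr0.le hr0'.le two_ne_zero).1 hrr
      have hxx : p.1.re = p'.1.re := by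
        have : v ^ 2 * p.1.re = v ^ 2 * p'.1.re := by linarith
        exact mul_left_cancel₀ hv2.ne' this
      rw [← hrr'] at e1' e3'
      have hcos := mul_left_cancel₀ hr0.ne' e1'
      have hsin := mul_left_cancel₀ hr0.ne' e3'
      rw [hθv, hθv'] at e2
      have e4 : v ^ 2 * (p.1.im + θ) = v ^ 2 * (p'.1.im + θ') := by linarith
      have e5 := mul_left_cancel₀ hv2.ne' e4
      have hcos1 : Real.cos (θ - θ') = 1 := by
        rw [Real.cos_sub, hcos, hsin, ← sq, ← sq, Real.cos_sq_add_sin_sq]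
      have hπ3 := Real.pi_gt_three
      have hθθ : θ - θ' = 0 :=
        (Real.cos_eq_one_iff_of_lt_of_lt (by linarith) (by linarith)).1 hcos1
      have hθθ' : θ = θ' := by linarith
      have hyy : p.2 = p'.2 := by
        have : p.2 - 3 * v = p'.2 - 3 * v := by rw [hθv, hθv', hθθ']
        linarith
      exact Prod.ext (Complex.ext hxx (by linarith)) hyy

end Run7.h811.SC
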