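import Pool.Agent.Run7.h811.SC.GAMB

set_option autoImplicit false

/-! # Project SC (MP_a6162f_an): GAML -/

namespace Run7.h811.SC

open MeasureTheory Set Filter Topology Metric
open Run7.h242.SC

theorem cc_lip {v y y' : ℝ} (hv : 0 < v) (hv1 : v ≤ 1 / 32) : |cc v y - cc v y'| ≤ |y - y'| := by
  unfold cc
  have h1 : |max (v ^ 2) (min v (v - (1 - v) * y)) - max (v ^ 2) (min v (v - (1 - v) * y'))| ≤
      |min v (v - (1 - v) * y) - min v (v - (1 - v) * y')| := by
    have := abs_max_sub_max_le_max (v ^ 2) (min v (v - (1 - v) * y)) (v ^ 2)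
      (min v (v - (1 - v) * y'))
    rw [sub_self, abs_zero] at this
    exact this.trans (max_le (abs_nonneg _) le_rfl)
  have h2 : |min v (v - (1 - v) * y) - min v (v - (1 - v) * y')| ≤
      |(v - (1 - v) * y) - (v - (1 - v) * y')| := by
    have := abs_min_sub_min_le_max v (v - (1 - v) * y) v (v - (1 - v) * y')
    rw [sub_self, abs_zero] at this
    exact this.trans (max_le (abs_nonneg _) le_rfl)
  have h3 : (v - (1 - v) * y) - (v - (1 - v) * y') = -((1 - v) * (y - y')) := by ring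
  rw [h3, abs_neg, abs_mul, abs_of_nonneg (by linarith : (0 : ℝ) ≤ 1 - v)] at h2
  have h4 : (1 - v) * |y - y'| ≤ |y - y'| := by nlinarith [abs_nonneg (y - y')]
  linarith

theorem tt_lip {v y y' : ℝ} : |tt v y - tt v y'| ≤ |y - y'| := by
  unfold tt
  have := abs_max_sub_max_le_max (y - 3 * v) 0 (y' - 3 * v) 0
  rw [sub_self, abs_zero] at this
  have e : y - 3 * v - (y' - 3 * v) = y - y' := by ring
  rw [e] at this
  exact this.trans (max_le le_rfl (abs_nonneg _))

theorem min_lip {a y y' : ℝ} : |min y a - min y' a| ≤ |y - y'| := by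
  have := abs_min_sub_min_le_max y a y' a
  rw [sub_self, abs_zero] at this
  exact this.trans (max_le le_rfl (abs_nonneg _))

/-- product with a trigonometric function -/
theorem trig_lip {v r r' s s' θ θ' A B : ℝ} (hv : 0 < v) (hr : |r| ≤ 2 * v)
    (hrr : |r - r'| ≤ A) (hθ : |s - s'| ≤ |θ - θ'|) (hs' : |s'| ≤ 1) (hB : |θ - θ'| ≤ B / v) :
    |r * s - r' * s'| ≤ 2 * B + A := by
  have e : r * s - r' * s' = r * (s - s') + (r - r') * s' := by ring
  rw [e]
  refine (abs_add_le _ _).trans ?_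
  rw [abs_mul, abs_mul]
  have h1 : |r| * |s - s'| ≤ 2 * v * (B / v) :=
    mul_le_mul hr (hθ.trans hB) (abs_nonneg _) (by linarith)
  have h2 : |r - r'| * |s'| ≤ A * 1 :=
    mul_le_mul hrr hs' (abs_nonneg _) ((abs_nonneg _).trans hrr)
  have h3 : 2 * v * (B / v) = 2 * B := by field_simp
  linarith

theorem t_GAML : S_GAML := by
  refine ⟨20, ?_⟩
  intro v hv hv1 c0 p p' hx hb hx' hb' hy0 hy1 hy0' hy1'
  set d := |p.2 - p'.2| with hd
  set n := ‖p.1 - p'.1‖ with hn
  have hre : |p.1.re - p'.1.re| ≤ n := by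
    rw [← Complex.sub_re]; exact Complex.abs_re_le_norm _
  have him : |p.1.im - p'.1.im| ≤ n := by
    rw [← Complex.sub_im]; exact Complex.abs_im_le_norm _
  have hc : |cc v p.2 - cc v p'.2| ≤ d := cc_lip hv hv1
  have hc0 : 0 < cc v p.2 := cc_pos hv
  have hc1 : cc v p.2 ≤ v := cc_le hv hv1
  have ht : |tt v p.2 - tt v p'.2| ≤ d := tt_lip
  have hd0 : 0 ≤ d := abs_nonneg _
  have hn0 : 0 ≤ n := norm_nonneg _
  have key : ∀ a a' : ℝ, |a'| ≤ 1 → |a - a'| ≤ n →
      |cc v p.2 * a - cc v p'.2 * a'| ≤ v * n + d := by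
    intro a a' ha' haa
    have e : cc v p.2 * a - cc v p'.2 * a' =
        cc v p.2 * (a - a') + (cc v p.2 - cc v p'.2) * a' := by ring
    rw [e]
    refine (abs_add_le _ _).trans ?_
    rw [abs_mul, abs_mul, abs_of_pos hc0]
    have h1 : cc v p.2 * |a - a'| ≤ v * n := mul_le_mul hc1 haa (abs_nonneg _) hv.le
    have h2 : |cc v p.2 - cc v p'.2| * |a'| ≤ d * 1 := mul_le_mul hc ha' (abs_nonneg _) hd0
    linarith
  have hr : |v + cc v p.2 * p.1.re| ≤ 2 * v := by
    refine (abs_add_le _ _).trans ?_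
    rw [abs_of_pos hv, abs_mul, abs_of_pos hc0]
    have : cc v p.2 * |p.1.re| ≤ v * 1 := mul_le_mul hc1 hx (abs_nonneg _) hv.le
    linarith
  have hrr : |(v + cc v p.2 * p.1.re) - (v + cc v p'.2 * p'.1.re)| ≤ v * n + d := by
    rw [add_sub_add_left_eq_sub]; exact key _ _ hx' hre
  have hθ : |tt v p.2 / v - tt v p'.2 / v| ≤ d / v := by
    rw [← sub_div, abs_div, abs_of_pos hv]
    exact div_le_div_of_nonneg_right ht hv.le
  have h1 := trig_lip hv hr hrr (Real.abs_cos_sub_cos_le (tt v p.2 / v) (tt v p'.2 / v))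
    (Real.abs_cos_le_one _) hθ
  have h2 := trig_lip hv hr hrr (Real.abs_sin_sub_sin_le (tt v p.2 / v) (tt v p'.2 / v))
    (Real.abs_sin_le_one _) hθ
  have h3 := key _ _ hb' him
  have h4 : |v * tt v p.2 - v * tt v p'.2| ≤ d := by
    rw [← mul_sub, abs_mul, abs_of_pos hv]
    have : v * |tt v p.2 - tt v p'.2| ≤ 1 * d :=
      mul_le_mul (by linarith) ht (abs_nonneg _) zero_le_one
    linarith
  have h5 : |min p.2 (3 * v) - min p'.2 (3 * v)| ≤ d := min_lip
  have hre' : |((Gam v c0 p - Gam v c0 p').1).re| ≤ v * n + 3 * d := by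
    rw [Prod.fst_sub, Complex.sub_re, fst_re, fst_re]
    have e : c0.re + (-v + (v + cc v p.2 * p.1.re) * Real.cos (tt v p.2 / v)) -
        (c0.re + (-v + (v + cc v p'.2 * p'.1.re) * Real.cos (tt v p'.2 / v))) =
        (v + cc v p.2 * p.1.re) * Real.cos (tt v p.2 / v) -
        (v + cc v p'.2 * p'.1.re) * Real.cos (tt v p'.2 / v) := by ring
    rw [e]; linarith
  have him' : |((Gam v c0 p - Gam v c0 p').1).im| ≤ v * n + 2 * d := by
    rw [Prod.fst_sub, Complex.sub_im, fst_im, fst_im]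
    have e : c0.im + (cc v p.2 * p.1.im + v * tt v p.2) -
        (c0.im + (cc v p'.2 * p'.1.im + v * tt v p'.2)) =
        (cc v p.2 * p.1.im - cc v p'.2 * p'.1.im) + (v * tt v p.2 - v * tt v p'.2) := by ring
    rw [e]
    refine (abs_add_le _ _).trans ?_
    linarith
  have hs' : |(Gam v c0 p - Gam v c0 p').2| ≤ v * n + 4 * d := by
    rw [Prod.snd_sub, snd_eq, snd_eq]
    have e : min p.2 (3 * v) + (v + cc v p.2 * p.1.re) * Real.sin (tt v p.2 / v) -
        (min p'.2 (3 * v) + (v + cc v p'.2 * p'.1.re) * Real.sin (tt v p'.2 / v)) =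
        (min p.2 (3 * v) - min p'.2 (3 * v)) +
        ((v + cc v p.2 * p.1.re) * Real.sin (tt v p.2 / v) -
        (v + cc v p'.2 * p'.1.re) * Real.sin (tt v p'.2 / v)) := by ring
    rw [e]
    refine (abs_add_le _ _).trans ?_
    linarith
  have hvn : 0 ≤ v * n := mul_nonneg hv.le hn0
  rw [Prod.norm_def]
  refine max_le ?_ ?_
  · refine (norm_le_ri _).trans ?_
    linarith
  · rw [Real.norm_eq_abs]
    linarith

end Run7.h811.SC
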